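import Pool.Agent.MP_d9ba76_lc.PartC

set_option autoImplicit false

open Pool.Agent.MP_d9ba76_lc

namespace Pool.Agent.Results.MP_d9ba76_lc.NoCone

/-- A c.e. operator which preserves Turing equivalence on the cone above `Z` is, at some set `X`
of that cone, either computable from `X` or, joined with `X`, complete for the sets c.e. in `X`. -/
theorem result (R : ℕ × List Bool → Prop) (hR : REPred R) (Z : Set ℕ)
    (hinv : ∀ X Y : Set ℕ, TuringReducible (chi Z) (chi X) →
      TuringReducible (chi X) (chi Y) → TuringReducible (chi Y) (chi X) →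
      TuringReducible (chi {m | ∃ l, R (m, l) ∧ Pre l X}) (chi {m | ∃ l, R (m, l) ∧ Pre l Y})) :
    ∃ X : Set ℕ, TuringReducible (chi Z) (chi X) ∧
      (TuringReducible (chi {m | ∃ l, R (m, l) ∧ Pre l X}) (chi X) ∨
        ∀ S : ℕ × List Bool → Prop, REPred S →
          TuringReducible (chi {m | ∃ l, S (m, l) ∧ Pre l X})
            (chi (join X {m | ∃ l, R (m, l) ∧ Pre l X}))) := by
  have conv : ∀ S : ℕ × List Bool → Prop, REPred S → ∃ q, PrimrecPred q ∧ ∀ X : Set ℕ,
      {m : ℕ | ∃ l : List Bool, S (m, l) ∧ Pre l X} = Wf q X := by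
    intro S hS
    obtain ⟨q, hq, e⟩ := ce_of_re hS
    refine ⟨q, hq, fun X => Set.ext fun m => ?_⟩
    simp only [Wf, Set.mem_ofPred_eq, e, exists_and_right]
  obtain ⟨q, hq, e⟩ := conv R hR
  simp only [e] at hinv ⊢
  obtain ⟨X, h1, h2⟩ := main_cone hq Z hinv
  refine ⟨X, h1, h2.imp_right fun h S hS => ?_⟩
  obtain ⟨r, hr, e'⟩ := conv S hS
  rw [e']
  exact h r hr

end Pool.Agent.Results.MP_d9ba76_lc.NoCone
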